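import Pool.Agent.H742.PW.Final
import Pool.Agent.H742.PW.P_A1
import Pool.Agent.H742.PW.P_B1
import Pool.Agent.H742.PW.P_B2
import Pool.Agent.H742.PW.P_CLA
import Pool.Agent.H742.PW.P_CLB
import Pool.Agent.H742.PW.P_CODE
import Pool.Agent.H742.PW.P_DECA
import Pool.Agent.H742.PW.P_DECB
import Pool.Agent.H742.PW.P_ISO
import Pool.Agent.H742.PW.P_MEA1
import Pool.Agent.H742.PW.P_MEA2
import Pool.Agent.H742.PW.P_PQ
import Pool.Agent.H742.PW.P_QS1
import Pool.Agent.H742.PW.P_QS2
import Pool.Agent.H742.PW.P_TR
import Pool.Agent.H742.PW.P_WIN1
import Pool.Agent.H742.PW.P_WIN2
import Pool.Agent.H742.PW.P_ZB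

/-!
# MP_9f2d77_lc : embeddability by finitely many convex pieces is not complete analytic

For the class `FinOrd` of the finite linear orders (a Borel class of scattered orders, downward closed, closed under
convex sums, different from the class of the one-point order) the equivalence relation `LBi FinOrd` on the space `LO`
of the linear orders on `ℕ` has only Borel classes. So it is not complete for analytic equivalence relations: an
analytic equivalence relation with a class that is not Borel is not Borel reducible to it.

Proof. (1) Being isomorphic to an initial segment of a fixed order `M` is a Borel condition on `L`: with markers and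
blocks `ℤ` it becomes convex bi-embeddability of an order computed from `L` with the fixed order `(1 + ℤ M) ω*`,
and the classes of convex bi-embeddability are Borel by the reduction to isomorphism (MP_387a72_lc). (2) A fixed
order `N` is isomorphic to an initial segment of `M` iff `N` is isomorphic to the set `U` of the `b` in `M` such that
`(-∞, b]` is isomorphic to some `(-∞, a]` in `N`, or to an initial segment of one of these. (3) Whether a variable
interval is the sum of an initial segment of a fixed (variable) order and a final segment of another one is decided
in the same way; in the critical case the only possible cut is replaced by the condition that the sum of the two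
candidates is isomorphic to the fixed order. (4) Embeddings by finitely many convex pieces are countable unions of
such conditions.
-/

namespace Pool.Agent.Results.MP_9f2d77_lc.FinitelyManyPieces

open Pool.Agent.H742.PW Pool.Agent.HLead.CB MeasureTheory

/-- The class `FinOrd` satisfies the hypotheses of the question (Borel, nonempty, downward closed under embeddability,
consisting of scattered orders, not only of the one-point order, closed under convex sums), all classes of the
equivalence relation `LBi FinOrd` are Borel, and `LBi FinOrd` is not complete for analytic equivalence relations. -/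
theorem result :
    (MeasurableSet FinOrd ∧ FinOrd.Nonempty ∧
      (∀ K ∈ FinOrd, ∀ K' : Lin, Nonempty (K'.T ↪o K.T) → K' ∈ FinOrd) ∧
      (∀ K ∈ FinOrd, IsEmpty (ℚ ↪o K.T)) ∧ (∃ K ∈ FinOrd, Nontrivial K.T) ∧
      ∀ x y z, LEmb FinOrd x y → LEmb FinOrd y z → LEmb FinOrd x z) ∧
    (∀ y, MeasurableSet {x | LBi FinOrd x y}) ∧ ¬ Complete (LBi FinOrd) := by
  have hPG := t_PG t_Q0 t_QS1 t_QS2 t_PQ
  have hCLA := t_CLA (t_BE t_ISO) t_CODE (t_WIN1 t_ZB) t_WIN2
  have hCLB := t_CLB t_ISO t_B1
  have hDA := t_DECA t_ISO hCLA t_A1
  have hDB := t_DECB t_ISO hCLA (t_B2 t_B1 t_A1)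
  exact final t_TR (t_MEA1 hPG t_ISO hCLA hDA) (t_MEA2 hPG t_ISO hCLA hCLB hDB)

end Pool.Agent.Results.MP_9f2d77_lc.FinitelyManyPieces
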